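import Mathlib

set_option autoImplicit false

namespace Pool.Agent.Lib.helper2.Dom

/-- `nd nb C k U = true` certifies that no `k` vertices dominate the bitmask `U`;
`nb w` lists the closed neighbourhood of `w`, `C u` is the mask of vertices not dominated by `u`. -/
def nd (nb : ℕ → List ℕ) (C : ℕ → ℕ) (k : ℕ) : ℕ → Bool :=
  Nat.rec (fun U => !(Nat.beq U 0))
    (fun _ ih U => !(Nat.beq U 0) && (nb (Nat.log2 U)).all (fun u => ih (U &&& C u))) k

theorem testBit_log2 {U : ℕ} (h : U ≠ 0) : U.testBit (Nat.log2 U) = true := by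
  apply Nat.testBit_of_two_pow_le_and_two_pow_add_one_gt
  · exact Nat.log2_self_le h
  · exact Nat.lt_log2_self

theorem nd_spec {n : ℕ} (H : SimpleGraph (Fin n)) (nb : ℕ → List ℕ) (C : ℕ → ℕ)
    (hnb : ∀ u w : Fin n, (u = w ∨ H.Adj u w) → u.val ∈ nb w.val)
    (hC : ∀ u w : Fin n, (C u.val).testBit w.val = true → ¬ (u = w ∨ H.Adj u w)) :
    ∀ (k U : ℕ), nd nb C k U = true → (∀ i, U.testBit i = true → i < n) →
      ∀ D : Finset (Fin n), D.card ≤ k →
        ∃ w : Fin n, U.testBit w.val = true ∧ ¬ (w ∈ D ∨ ∃ u ∈ D, H.Adj u w) := by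
  intro k
  induction k with
  | zero =>
    intro U h hU D hD
    have h0 : U ≠ 0 := by
      intro e; subst e; simp [nd] at h
    have hD0 : D = ∅ := Finset.card_eq_zero.1 (by omega)
    exact ⟨⟨Nat.log2 U, hU _ (testBit_log2 h0)⟩, testBit_log2 h0, by simp [hD0]⟩
  | succ k ih =>
    intro U h hU D hD
    have h' : (!(Nat.beq U 0) && (nb (Nat.log2 U)).all (fun u => nd nb C k (U &&& C u))) = true := h
    rw [Bool.and_eq_true, List.all_eq_true] at h'
    have h0 : U ≠ 0 := by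
      intro e; subst e; simp at h'
    let w : Fin n := ⟨Nat.log2 U, hU _ (testBit_log2 h0)⟩
    by_cases hw : w ∈ D ∨ ∃ u ∈ D, H.Adj u w
    · obtain ⟨u, huD, hu⟩ : ∃ u ∈ D, u = w ∨ H.Adj u w := by
        rcases hw with hw | ⟨u, h1, h2⟩
        · exact ⟨w, hw, Or.inl rfl⟩
        · exact ⟨u, h1, Or.inr h2⟩
      have h1 := h'.2 u.val (hnb u w hu)
      obtain ⟨w', hw1, hw2⟩ := ih _ h1
        (fun i hi => hU i (by rw [Nat.testBit_and, Bool.and_eq_true] at hi; exact hi.1))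
        (D.erase u) (by rw [Finset.card_erase_of_mem huD]; omega)
      rw [Nat.testBit_and, Bool.and_eq_true] at hw1
      have h3 := hC u w' hw1.2
      refine ⟨w', hw1.1, ?_⟩
      rintro (h4 | ⟨z, hz, hzw⟩)
      · exact hw2 (Or.inl (Finset.mem_erase.2 ⟨fun e => h3 (Or.inl e.symm), h4⟩))
      · by_cases e : z = u
        · subst e; exact h3 (Or.inr hzw)
        · exact hw2 (Or.inr ⟨z, Finset.mem_erase.2 ⟨e, hz⟩, hzw⟩)
    · exact ⟨w, testBit_log2 h0, hw⟩

/-- every dominating set has more than `k` vertices -/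
theorem lt_card {n : ℕ} (H : SimpleGraph (Fin n)) (nb : ℕ → List ℕ) (C : ℕ → ℕ)
    (hnb : ∀ u w : Fin n, (u = w ∨ H.Adj u w) → u.val ∈ nb w.val)
    (hC : ∀ u w : Fin n, (C u.val).testBit w.val = true → ¬ (u = w ∨ H.Adj u w))
    (k : ℕ) (h : nd nb C k (2 ^ n - 1) = true) (D : Finset (Fin n))
    (hD : ∀ w, w ∈ D ∨ ∃ u ∈ D, H.Adj u w) : k < D.card := by
  by_contra hk
  obtain ⟨w, _, hw⟩ := nd_spec H nb C hnb hC k _ h
    (fun i hi => by simpa [Nat.testBit_two_pow_sub_one] using hi) D (by omega)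
  exact hw (hD w)

end Pool.Agent.Lib.helper2.Dom
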