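import Mathlib

set_option autoImplicit false

namespace Pool.Agent.Lib.helper2.OrdPoly

open Finset

open Classical in
/-- Maps into `S` that are weakly increasing along `r`. -/
noncomputable def A {I : Type} [Fintype I] [DecidableEq I] (r : I → I → Prop) (S : Finset ℕ) :
    Finset (I → ℕ) :=
  (Fintype.piFinset fun _ => S).filter fun x => ∀ a b, r a b → x a ≤ x b

open Classical in
noncomputable def e {I : Type} [Fintype I] [DecidableEq I] (r : I → I → Prop) (k : ℕ) : ℕ :=
  #{g : I → Fin k | (∀ a b, r a b → g a ≤ g b) ∧ Function.Surjective g}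

theorem e_zero {I : Type} [Fintype I] [DecidableEq I] (r : I → I → Prop) (k : ℕ)
    (h : Fintype.card I < k) : e r k = 0 := by
  classical
  rw [e, card_eq_zero, filter_eq_empty_iff]
  rintro g - ⟨-, hg⟩
  have := Fintype.card_le_of_surjective g hg
  rw [Fintype.card_fin] at this
  omega

theorem fiber {I : Type} [Fintype I] [DecidableEq I] (r : I → I → Prop) (T S : Finset ℕ)
    (hS : S ⊆ T) : #{x ∈ A r T | univ.image x = S} = e r #S := by
  classical
  symm
  refine card_bij (fun g _ => S.orderEmbOfFin rfl ∘ g) ?_ ?_ ?_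
  · intro g hg
    obtain ⟨-, h1, h2⟩ := mem_filter.1 hg
    simp only [A, mem_filter, Fintype.mem_piFinset, Function.comp]
    refine ⟨⟨fun a => hS (orderEmbOfFin_mem _ _ _), fun a b h =>
      (S.orderEmbOfFin rfl).monotone (h1 a b h)⟩, ?_⟩
    ext y
    simp only [mem_image, mem_univ, true_and]
    constructor
    · rintro ⟨a, rfl⟩
      exact orderEmbOfFin_mem _ _ _
    · intro hy
      obtain ⟨a, ha⟩ := h2 ((S.orderIsoOfFin rfl).symm ⟨y, hy⟩)
      exact ⟨a, by
        rw [Function.comp, ha, ← coe_orderIsoOfFin_apply, OrderIso.apply_symm_apply]⟩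
  · intro g _ g' _ h
    funext a
    exact (S.orderEmbOfFin rfl).injective (congrFun h a)
  · intro x hx
    simp only [A, mem_filter, Fintype.mem_piFinset] at hx
    obtain ⟨⟨-, h1⟩, h2⟩ := hx
    have hm : ∀ a, x a ∈ S := fun a => h2 ▸ mem_image_of_mem x (mem_univ a)
    refine ⟨fun a => (S.orderIsoOfFin rfl).symm ⟨x a, hm a⟩, mem_filter.2 ⟨mem_univ _,
      fun a b h => (S.orderIsoOfFin rfl).symm.monotone (h1 a b h), fun k => ?_⟩, ?_⟩
    · obtain ⟨a, -, ha⟩ := mem_image.1 (h2.ge (S.orderIsoOfFin rfl k).2)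
      exact ⟨a, by rw [OrderIso.symm_apply_eq]; exact Subtype.ext ha⟩
    · funext a
      rw [Function.comp, ← coe_orderIsoOfFin_apply, OrderIso.apply_symm_apply]

theorem card_A {I : Type} [Fintype I] [DecidableEq I] (r : I → I → Prop) (m : ℕ) :
    #(A r (range m)) = ∑ k ∈ range (Fintype.card I + 1), m.choose k * e r k := by
  classical
  rw [card_eq_sum_card_fiberwise (t := (range m).powerset) (f := fun x => univ.image x)]
  · rw [sum_congr rfl fun S hS => fiber r _ S (mem_powerset.1 hS), sum_powerset_apply_card (e r),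
      card_range]
    simp only [smul_eq_mul]
    rw [sum_subset (range_subset_range.2 (Nat.le_add_right (m + 1) (Fintype.card I + 1))),
      sum_subset (range_subset_range.2 (Nat.le_add_left (Fintype.card I + 1) (m + 1)))]
    · intro k _ hk
      rw [e_zero r k (by simpa using hk), mul_zero]
    · intro k _ hk
      rw [Nat.choose_eq_zero_of_lt (by simpa using hk), zero_mul]
  · intro x hx
    simp only [A, coe_filter, Fintype.mem_piFinset, Set.mem_ofPred_eq] at hx
    exact mem_coe.2 (mem_powerset.2 (image_subset_iff.2 fun a _ => hx.1 a))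

/-- The order polynomial: the count of maps into `{0,..,t}` is a polynomial in `t`. -/
theorem exists_poly {I : Type} [Fintype I] [DecidableEq I] (r : I → I → Prop) :
    ∃ p : Polynomial ℚ, p.natDegree ≤ Fintype.card I ∧
      ∀ t : ℕ, p.eval (t : ℚ) = #(A r (range (t + 1))) := by
  refine ⟨∑ k ∈ range (Fintype.card I + 1), Polynomial.C ((e r k : ℚ) / k.factorial) *
    (descPochhammer ℚ k).comp (Polynomial.X + Polynomial.C 1), ?_, fun t => ?_⟩
  · refine Polynomial.natDegree_sum_le_of_forall_le _ _ fun k hk => ?_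
    refine (Polynomial.natDegree_C_mul_le _ _).trans (Polynomial.natDegree_comp_le.trans ?_)
    rw [descPochhammer_natDegree, Polynomial.natDegree_X_add_C, mul_one]
    exact Nat.lt_succ_iff.1 (mem_range.1 hk)
  · rw [card_A, Polynomial.eval_finsetSum, Nat.cast_sum]
    refine sum_congr rfl fun k _ => ?_
    simp only [Polynomial.eval_mul, Polynomial.eval_C, Polynomial.eval_comp, Polynomial.eval_add,
      Polynomial.eval_X, Nat.cast_mul, Nat.cast_choose_eq_descPochhammer_div]
    push_cast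
    ring

/-- Walk sums as iterated matrix action. -/
def g (M : ℕ → ℕ → ℕ) (n b : ℕ) : ℕ → ℕ → ℕ
  | 0 => fun a => if a = b then 1 else 0
  | k + 1 => fun a => ∑ c ∈ range n, M a c * g M n b k c

theorem walks (M : ℕ → ℕ → ℕ) (n b : ℕ) (hb : b < n) (k a : ℕ) :
    ∑ v ∈ Fintype.piFinset fun _ : Fin k => range n,
      ∏ i : Fin (k + 1), M (Fin.cons (α := fun _ => ℕ) a v i) (Fin.snoc (α := fun _ => ℕ) v b i) =
      g M n b (k + 1) a := by
  induction k generalizing a with
  | zero => simp [g, hb, Fin.snoc]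
  | succ k ih =>
    rw [g]
    simp only [← ih, mul_sum]
    rw [← sum_product']
    symm
    refine sum_bij (fun p _ => Fin.cons p.1 p.2) ?_ ?_ ?_ ?_
    · rintro ⟨c, v⟩ h
      obtain ⟨h1, h2⟩ := mem_product.1 h
      exact Fintype.mem_piFinset.2 fun i => Fin.cases h1 (Fintype.mem_piFinset.1 h2) i
    · rintro ⟨c, v⟩ - ⟨c', v'⟩ - h
      obtain ⟨rfl, rfl⟩ := Fin.cons_inj.1 h
      rfl
    · intro v hv
      exact ⟨(v 0, Fin.tail v), mem_product.2 ⟨Fintype.mem_piFinset.1 hv _,
        Fintype.mem_piFinset.2 fun i => Fintype.mem_piFinset.1 hv _⟩, Fin.cons_self_tail v⟩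
    · rintro ⟨c, v⟩ -
      rw [Fin.prod_univ_succ (n := k + 1), ← Fin.cons_snoc_eq_snoc_cons]
      simp

theorem cyc (M : ℕ → ℕ → ℕ) (n k : ℕ) :
    ∑ v ∈ Fintype.piFinset fun _ : Fin (k + 1) => range n, ∏ i, M (v i) (v (finRotate _ i)) =
      ∑ a ∈ range n, g M n a (k + 1) a := by
  rw [sum_congr rfl fun a ha => (walks M n a (mem_range.1 ha) k a).symm, ← sum_product']
  symm
  refine sum_bij (fun p _ => Fin.cons p.1 p.2) ?_ ?_ ?_ ?_
  · rintro ⟨c, v⟩ h
    obtain ⟨h1, h2⟩ := mem_product.1 h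
    exact Fintype.mem_piFinset.2 fun i => Fin.cases h1 (Fintype.mem_piFinset.1 h2) i
  · rintro ⟨c, v⟩ - ⟨c', v'⟩ - h
    obtain ⟨rfl, rfl⟩ := Fin.cons_inj.1 h
    rfl
  · intro v hv
    exact ⟨(v 0, Fin.tail v), mem_product.2 ⟨Fintype.mem_piFinset.1 hv _,
      Fintype.mem_piFinset.2 fun i => Fintype.mem_piFinset.1 hv _⟩, Fin.cons_self_tail v⟩
  · rintro ⟨c, v⟩ -
    simp only [Fin.snoc_eq_cons_rotate]

end Pool.Agent.Lib.helper2.OrdPoly
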