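import Mathlib

set_option autoImplicit false

namespace Pool.Agent.Lib.helper2.QProd

open PowerSeries PowerSeries.WithPiTopology Filter Topology

theorem tprod_trunc (f : ℕ → ℤ⟦X⟧) (h : ∀ i, X ^ (i + 1) ∣ f i - 1) (N : ℕ) :
    ∃ B, ∏' i, f i = ∏ i ∈ Finset.range N, f i + X ^ (N + 1) * B := by
  have hm : Multipliable f := by
    have : f = fun i => 1 + (f i - 1) := by ext1 i; ring
    rw [this]
    apply multipliable_one_add_of_tendsto_order_atTop_nhds_top
    refine ENat.tendsto_nhds_top_iff_natCast_lt.mpr (fun n => eventually_atTop.mpr ⟨n, ?_⟩)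
    intro m hm
    refine lt_of_lt_of_le ?_ (nat_le_order _ (m + 1) (X_pow_dvd_iff.1 (h m)))
    exact_mod_cast Nat.lt_add_one_iff.mpr hm
  have h1 : ∀ n, X ^ (N + 1) ∣ ∏ i ∈ Finset.range (N + n), f i - ∏ i ∈ Finset.range N, f i := by
    intro n
    induction n with
    | zero => simp
    | succ n ih =>
      rw [← add_assoc, Finset.prod_range_succ]
      have e : (∏ i ∈ Finset.range (N + n), f i) * f (N + n) - ∏ i ∈ Finset.range N, f i =
          (∏ i ∈ Finset.range (N + n), f i - ∏ i ∈ Finset.range N, f i) +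
          (∏ i ∈ Finset.range (N + n), f i) * (f (N + n) - 1) := by ring
      rw [e]
      exact dvd_add ih (Dvd.dvd.mul_left ((pow_dvd_pow _ (by omega)).trans (h (N + n))) _)
  have h2 : X ^ (N + 1) ∣ ∏' i, f i - ∏ i ∈ Finset.range N, f i := by
    refine X_pow_dvd_iff.2 fun j hj => ?_
    have t := ((continuous_coeff ℤ j).tendsto _).comp hm.hasProd.tendsto_prod_nat
    have t2 : Tendsto (fun n => coeff j (∏ i ∈ Finset.range n, f i)) atTop
        (𝓝 (coeff j (∏ i ∈ Finset.range N, f i))) := by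
      refine tendsto_const_nhds.congr' (eventually_atTop.2 ⟨N, fun n hn => ?_⟩)
      obtain ⟨c, rfl⟩ := Nat.exists_eq_add_of_le hn
      have := X_pow_dvd_iff.1 (h1 c) j hj
      rw [map_sub, sub_eq_zero] at this
      exact this.symm
    rw [map_sub, sub_eq_zero]
    exact tendsto_nhds_unique t t2
  obtain ⟨B, hB⟩ := h2
  exact ⟨B, by rw [← hB]; ring⟩

theorem poch_trunc (a b : ℕ) (ha : 1 ≤ a) (hb : 1 ≤ b) (N : ℕ) :
    ∃ B : ℤ⟦X⟧, ∏' i, (1 - X ^ (a + b * i)) =
      ∏ i ∈ Finset.range N, (1 - X ^ (a + b * i)) + X ^ (N + 1) * B :=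
  tprod_trunc _ (fun i => by
    rw [sub_sub_cancel_left]
    exact (pow_dvd_pow _ (by nlinarith)).neg_right) N

end Pool.Agent.Lib.helper2.QProd
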